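import Mathlib

namespace Pool.Agent.Results.MP_427463_al.Yes

open Matrix QuaternionGroup

abbrev Q := QuaternionGroup 4

def RA : List (List (List ℤ)) := [[[1, 0, 0, 0, 0, 0, 0, 0], [0, 1, 0, 0, 0, 0, 0, 0], [0, 0, 1, 0, 0, 0, 0, 0], [0, 0, 0, 1, 0, 0, 0, 0], [0, 0, 0, 0, 1, 0, 0, 0], [0, 0, 0, 0, 0, 1, 0, 0], [0, 0, 0, 0, 0, 0, 1, 0], [0, 0, 0, 0, 0, 0, 0, 1]], [[0, 0, 0, 0, 0, -1, -1, -1], [0, 0, 0, 0, 1, 0, -1, 0], [0, 0, 0, 0, 0, 0, -1, -1], [0, 0, 0, 0, 0, 0, 2, 1], [1, 0, 0, 0, 0, 0, 0, 0], [0, 1, 0, 0, 0, 0, 0, 0], [0, 0, 1, 0, 0, 0, 0, 0], [0, 0, 0, 1, 0, 0, 0, 0]], [[0, -1, -1, -1, 0, 0, 0, 0], [1, 0, -1, 0, 0, 0, 0, 0], [0, 0, -1, -1, 0, 0, 0, 0], [0, 0, 2, 1, 0, 0, 0, 0], [0, 0, 0, 0, 0, -1, -1, -1], [0, 0, 0, 0, 1, 0, -1, 0], [0, 0, 0, 0, 0, 0, -1, -1], [0, 0, 0, 0, 0, 0, 2, 1]], [[0, 0, 0, 0, -1, 0, 0, 0], [0, 0, 0, 0, 0, -1, 0, 0], [0, 0, 0, 0, 0, 0,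 -1, 0], [0, 0, 0, 0, 0, 0, 0, -1], [0, -1, -1, -1, 0, 0, 0, 0], [1, 0, -1, 0, 0, 0, 0, 0], [0, 0, -1, -1, 0, 0, 0, 0], [0, 0, 2, 1, 0, 0, 0, 0]], [[-1, 0, 0, 0, 0, 0, 0, 0], [0, -1, 0, 0, 0, 0, 0, 0], [0, 0, -1, 0, 0, 0, 0, 0], [0, 0, 0, -1, 0, 0, 0, 0], [0, 0, 0, 0, -1, 0, 0, 0], [0, 0, 0, 0, 0, -1, 0, 0], [0, 0, 0, 0, 0, 0, -1, 0], [0, 0, 0, 0, 0, 0, 0, -1]], [[0, 0, 0, 0, 0, 1, 1, 1], [0, 0, 0, 0, -1, 0, 1, 0], [0, 0, 0, 0, 0, 0, 1, 1], [0, 0, 0, 0, 0, 0, -2, -1], [-1, 0, 0, 0, 0, 0, 0, 0], [0, -1, 0, 0, 0, 0, 0, 0], [0, 0, -1, 0, 0, 0, 0, 0], [0, 0, 0, -1, 0, 0, 0, 0]], [[0, 1, 1, 1, 0, 0, 0, 0], [-1, 0, 1, 0, 0, 0, 0, 0], [0, 0, 1, 1, 0, 0, 0, 0], [0, 0, -2, -1, 0, 0, 0, 0], [0, 0, 0, 0, 0, 1, 1, 1], [0, 0, 0, 0, -1, 0, 1, 0], [0, 0, 0, 0, 0, 0, 1, 1], [0, 0, 0, 0, 0, 0, -2, -1]], [[0, 0, 0, 0, 1, 0, 0, 0], [0, 0, 0, 0, 0, 1, 0, 0], [0, 0, 0, 0, 0, 0, 1, 0], [0,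 0, 0, 0, 0, 0, 0, 1], [0, 1, 1, 1, 0, 0, 0, 0], [-1, 0, 1, 0, 0, 0, 0, 0], [0, 0, 1, 1, 0, 0, 0, 0], [0, 0, -2, -1, 0, 0, 0, 0]]]

def RX : List (List (List ℤ)) := [[[0, 1, -1, 0, 0, 0, 0, 0], [0, 1, 0, 1, 0, 0, 0, 0], [1, 1, 0, 1, 0, 0, 0, 0], [0, -2, 0, -1, 0, 0, 0, 0], [0, 0, 0, 0, 1, 0, 0, 1], [0, 0, 0, 0, 1, 0, 1, 1], [0, 0, 0, 0, 1, -1, 0, 0], [0, 0, 0, 0, -2, 0, 0, -1]], [[0, 0, 0, 0, 1, 0, 0, 1], [0, 0, 0, 0, 1, 0, 1, 1], [0, 0, 0, 0, 1, -1, 0, 0], [0, 0, 0, 0, -2, 0, 0, -1], [1, 0, 0, 1, 0, 0, 0, 0], [1, 0, 1, 1, 0, 0, 0, 0], [1, -1, 0, 0, 0, 0, 0, 0], [-2, 0, 0, -1, 0, 0, 0, 0]], [[1, 0, 0, 1, 0, 0, 0, 0], [1, 0, 1, 1, 0, 0, 0, 0], [1, -1, 0, 0, 0, 0, 0, 0], [-2, 0, 0, -1, 0, 0, 0, 0], [0, 0, 0, 0, 0, -1, 1, 0], [0, 0, 0, 0, 0, -1, 0, -1], [0, 0, 0, 0, -1, -1, 0, -1], [0, 0, 0, 0, 0, 2, 0, 1]], [[0, 0, 0, 0, 0, -1, 1, 0], [0, 0, 0, 0, 0, -1, 0, -1], [0, 0,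 0, 0, -1, -1, 0, -1], [0, 0, 0, 0, 0, 2, 0, 1], [0, -1, 1, 0, 0, 0, 0, 0], [0, -1, 0, -1, 0, 0, 0, 0], [-1, -1, 0, -1, 0, 0, 0, 0], [0, 2, 0, 1, 0, 0, 0, 0]], [[0, -1, 1, 0, 0, 0, 0, 0], [0, -1, 0, -1, 0, 0, 0, 0], [-1, -1, 0, -1, 0, 0, 0, 0], [0, 2, 0, 1, 0, 0, 0, 0], [0, 0, 0, 0, -1, 0, 0, -1], [0, 0, 0, 0, -1, 0, -1, -1], [0, 0, 0, 0, -1, 1, 0, 0], [0, 0, 0, 0, 2, 0, 0, 1]], [[0, 0, 0, 0, -1, 0, 0, -1], [0, 0, 0, 0, -1, 0, -1, -1], [0, 0, 0, 0, -1, 1, 0, 0], [0, 0, 0, 0, 2, 0, 0, 1], [-1, 0, 0, -1, 0, 0, 0, 0], [-1, 0, -1, -1, 0, 0, 0, 0], [-1, 1, 0, 0, 0, 0, 0, 0], [2, 0, 0, 1, 0, 0, 0, 0]], [[-1, 0, 0, -1, 0, 0, 0, 0], [-1, 0, -1, -1, 0, 0, 0, 0], [-1, 1, 0, 0, 0, 0, 0, 0], [2, 0, 0, 1, 0, 0, 0, 0], [0, 0, 0, 0, 0, 1, -1, 0], [0, 0, 0, 0, 0, 1, 0, 1], [0, 0, 0, 0, 1, 1, 0, 1], [0, 0, 0, 0, 0, -2, 0, -1]], [[0, 0, 0, 0, 0, 1, -1, 0], [0, 0, 0, 0, 0, 1, 0, 1], [0,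 0, 0, 0, 1, 1, 0, 1], [0, 0, 0, 0, 0, -2, 0, -1], [0, 1, -1, 0, 0, 0, 0, 0], [0, 1, 0, 1, 0, 0, 0, 0], [1, 1, 0, 1, 0, 0, 0, 0], [0, -2, 0, -1, 0, 0, 0, 0]]]

def R (b : Fin 2) : Q → Matrix (Fin 8) (Fin 8) ℤ
  | a i => of fun j k => ((RA.getD i.val []).getD j []).getD k 0
  | xa i => of fun j k => ((RX.getD ((i.val + b.1) % 8) []).getD j []).getD k 0

def c : Q → Fin 8 → ℤ
  | a _ => 0
  | xa _ => fun i => [0, 1, 1, 0, 0, 1, 1, 0].getD i 0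

def par (b : Fin 2) : Q → Bool
  | a i => i.val % 2 = 0
  | xa i => (i.val + b.1) % 2 = 1

def F (b : Fin 2) (q r : Q) (i : Fin 8) : ℤ := (c q i + (R b q *ᵥ c r) i - c (q * r) i) / 2

lemma hR0 : ∀ q r i j, R 0 (q * r) i j = (R 0 q * R 0 r) i j := by
  simp only [mul_apply, Fin.sum_univ_eight]
  decide +kernel

lemma hR1 : ∀ q r i j, R 1 (q * r) i j = (R 1 q * R 1 r) i j := by
  simp only [mul_apply, Fin.sum_univ_eight]
  decide +kernel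

lemma hR : ∀ b q r i j, R b (q * r) i j = (R b q * R b r) i j := Fin.forall_fin_two.2 ⟨hR0, hR1⟩

lemma hF : ∀ b q r i, 2 * F b q r i = c q i + (R b q *ᵥ c r) i - c (q * r) i := by decide +kernel

lemma h1 : ∀ b, (R b 1 = 1 ∧ R b (a 4) = -1) ∧ ∀ q i, F b 1 q i = 0 := by decide +kernel

lemma hC (b p q r) : F b p q + F b (p * q) r = R b p *ᵥ F b q r + F b p (q * r) := by
  have e : ∀ q r, (2 : ℤ) • F b q r = c q + R b q *ᵥ c r - c (q * r) := fun q r => funext (hF b q r)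
  refine smul_right_injective _ (two_ne_zero (α := ℤ)) ?_
  simp only [smul_add, ← mulVec_smul, e, mulVec_add, mulVec_sub, mulVec_mulVec, mul_assoc,
    show R b (p * q) = R b p * R b q from Matrix.ext (hR b p q)]
  abel

def A {K : Type} [CommRing K] (b : Fin 2) (q : Q) (w : Fin 8 → K) : Fin 8 → K :=
  (R b q).map (Int.castRingHom K) *ᵥ w

def f (K : Type) [CommRing K] (b : Fin 2) (q r : Q) (i : Fin 8) : K := Int.castRingHom K (F b q r i)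

def C (b : Fin 2) (v0 v1 v2 v3 v4 v5 v6 v7 : ZMod 2) (r : Q) : Prop :=
  ∀ i : Fin 8, [v0, v1, v2, v3, v4, v5, v6, v7].getD i 0 - c r i = R b r i 0 * v0 + R b r i 1 * v1 +
    R b r i 2 * v2 + R b r i 3 * v3 + R b r i 4 * v4 + R b r i 5 * v5 + R b r i 6 * v6 + R b r i 7 * v7

lemma hz0 : ∀ b v0 v1 v2 v3 v4 v5 v6 v7 r, C b v0 v1 v2 v3 v4 v5 v6 v7 r → ∀ s,
    (r * s = s * r ∨ par b r ∧ par b s) ∨ ¬ C b v0 v1 v2 v3 v4 v5 v6 v7 s := by
  unfold C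
  decide +kernel

lemma hF4 : ∀ b r i, F b r (a 4) i = 0 ∧ F b (a 4) r i = -c r i := by decide +kernel

lemma hz (b) (v : Fin 8 → ZMod 2) (r) (h : ∀ i, v i + f _ b (a 4) r i = A b r v i + f _ b r (a 4) i) (s) :
    (r * s = s * r ∨ par b r ∧ par b s) ∨ ¬ ∀ i, v i + f _ b (a 4) s i = A b s v i + f _ b s (a 4) i := by
  have e : ∀ r, (∀ i, v i + f _ b (a 4) r i = A b r v i + f _ b r (a 4) i) →
      C b (v 0) (v 1) (v 2) (v 3) (v 4) (v 5) (v 6) (v 7) r := fun r h i => by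
    have e1 : [v 0, v 1, v 2, v 3, v 4, v 5, v 6, v 7].getD i 0 = v i := by fin_cases i <;> rfl
    simpa only [e1, f, hF4, A, mulVec, dotProduct, Fin.sum_univ_eight, map_apply, eq_intCast,
      Int.cast_neg, Int.cast_zero, add_zero, sub_eq_add_neg] using h i
  exact (hz0 b _ _ _ _ _ _ _ _ r (e r h) s).imp_right (mt (e s))

lemma hq : (∀ q : Q, q ≠ 1 → ∃ k < 5, q ^ k = a 4) ∧
    (∀ q r s : Q, q ≠ 1 → q ≠ a 4 → q * r = r * q → q * s = s * q → r * s = s * r) ∧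
    ∀ r s : Q, par 0 r ∧ par 0 s → par 1 r ∧ par 1 s → r * s = s * r := by decide +kernel

lemma Am {K : Type} [CommRing K] (b p q) (w : Fin 8 → K) : A b (p * q) w = A b p (A b q w) := by
  simp only [A, mulVec_mulVec, show R b (p * q) = R b p * R b q from Matrix.ext (hR b p q), Matrix.map_mul]

lemma A1 {K : Type} [CommRing K] (b) (w : Fin 8 → K) : A b 1 w = w := by simp [A, (h1 b).1.1]

lemma Az {K : Type} [CommRing K] (b) (w : Fin 8 → K) : A b (a 4) w = -w := by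
  simp [A, (h1 b).1.2, Matrix.map_neg, neg_mulVec]

lemma fC (b p q r) : f ℤ_[2] b p q + f _ b (p * q) r = A b p (f _ b q r) + f _ b p (q * r) := by
  funext i
  have := congrArg (Int.castRingHom ℤ_[2]) (congrFun (hC b p q r) i)
  rw [Pi.add_apply, Pi.add_apply, map_add, map_add, RingHom.map_mulVec] at this
  exact this

instance : TopologicalSpace Q := ⊥

instance : DiscreteTopology Q := ⟨rfl⟩

def G : Type := (Fin 2 → Fin 8 → ℤ_[2]) × Q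

noncomputable instance : TopologicalSpace G := inferInstanceAs (TopologicalSpace (_ × _))

noncomputable instance : Mul G :=
  ⟨fun g h => (fun b => g.1 b + A b g.2 (h.1 b) + f _ b g.2 h.2, g.2 * h.2)⟩

noncomputable instance : One G := ⟨(0, 1)⟩

noncomputable instance : Inv G := ⟨fun g => (fun b => -A b g.2⁻¹ (g.1 b) - f _ b g.2⁻¹ g.2, g.2⁻¹)⟩

lemma m1 (g h : G) (b) : (g * h).1 b = g.1 b + A b g.2 (h.1 b) + f _ b g.2 h.2 := rfl

lemma m2 (g h : G) : (g * h).2 = g.2 * h.2 := rfl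

lemma f1 (b q) : f ℤ_[2] b 1 q = 0 := funext fun i => by simp [f, (h1 b).2]

lemma f2 (b q) : f ℤ_[2] b q 1 = 0 := by
  have := fC b q 1 1
  rwa [mul_one, mul_one, f1, add_left_inj, A, mulVec_zero] at this

noncomputable instance : Group G := Group.ofLeftAxioms
  (fun g h k => Prod.ext (funext fun b => by
    have := fC b g.2 h.2 k.2
    simp only [m1, m2, Am]
    simp only [A, mulVec_add] at this ⊢
    linear_combination this) (mul_assoc _ _ _))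
  (fun g => Prod.ext (funext fun b => by
    change 0 + A b 1 _ + f _ b 1 _ = _
    rw [A1, f1, zero_add, add_zero]) (one_mul _))
  (fun g => Prod.ext (funext fun b => by
    change -A b _ _ - f _ b _ _ + A b g.2⁻¹ _ + f _ b g.2⁻¹ _ = 0
    abel) (inv_mul_cancel _))

lemma cA (b) {X : Type} [TopologicalSpace X] {q : X → Q} {w : X → Fin 8 → ℤ_[2]} (hq : Continuous q)
    (hw : Continuous w) : Continuous fun x => A b (q x) (w x) :=
  ((continuous_of_discreteTopology (f := fun q => (R b q).map (Int.castRingHom ℤ_[2]))).comp hq).matrix_mulVec hw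

lemma cf (b) : Continuous fun x : Q × Q => f ℤ_[2] b x.1 x.2 := continuous_of_discreteTopology

instance : IsTopologicalGroup G where
  continuous_mul := Continuous.prodMk (continuous_pi fun b =>
    (((continuous_apply b).comp continuous_fst.fst).add
      (cA b continuous_fst.snd ((continuous_apply b).comp continuous_snd.fst))).add
      ((cf b).comp (continuous_fst.snd.prodMk continuous_snd.snd)))
    ((continuous_of_discreteTopology (f := fun x : Q × Q => x.1 * x.2)).comp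
      (continuous_fst.snd.prodMk continuous_snd.snd))
  continuous_inv :=
    have h : Continuous fun g : G => g.2⁻¹ :=
      (continuous_of_discreteTopology (f := fun x : Q => x⁻¹)).comp continuous_snd
    Continuous.prodMk (continuous_pi fun b =>
      (cA b h ((continuous_apply b).comp continuous_fst)).neg.sub
        ((cf b).comp (h.prodMk continuous_snd))) h

noncomputable def π : G →* Q := MonoidHom.mk' (·.2) m2

lemma free (g n : G) (hn : n.2 = 1) (h : g * n = n * g) : g.2 = 1 ∨ n = 1 := by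
  refine or_iff_not_imp_left.2 fun hg => Prod.ext (funext fun b => ?_) hn
  have e := congrFun (congrArg Prod.fst h) b
  rw [m1, m1, hn, f1, f2, A1, add_comm (n.1 b), add_left_inj, add_right_inj] at e
  obtain ⟨k, -, hk⟩ := hq.1 _ hg
  have : ∀ k, A b (g.2 ^ k) (n.1 b) = n.1 b := fun k => by
    induction k with
    | zero => exact A1 _ _
    | succ k ih => rw [pow_succ, Am, e, ih]
  have := this k
  rw [hk, Az] at this
  exact funext fun i => CharZero.neg_eq_self_iff.1 (congrFun this i)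

lemma ab (g h : G) (hg : g.2 = 1) (hh : h.2 = 1) : g * h = h * g :=
  Prod.ext (funext fun b => by rw [m1, m1, hg, hh, A1, A1, add_comm (g.1 b)]) (by rw [m2, m2, hg, hh])

theorem result : ∃ (G : Type) (_ : Group G) (_ : TopologicalSpace G), IsTopologicalGroup G ∧
    CompactSpace G ∧ T2Space G ∧ TotallyDisconnectedSpace G ∧
    (∀ g : G, g ≠ 1 → ∀ x y, x * g = g * x → y * g = g * y → x * y = y * x) ∧
    ∃ (N : Subgroup G) (_ : N.Normal), IsClosed (N : Set G) ∧ (∀ x ∈ N, ∀ y ∈ N, x * y = y * x) ∧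
      Nonempty (G ⧸ N ≃* QuaternionGroup 4) := by
  refine ⟨G, inferInstance, inferInstance, inferInstance, inferInstanceAs (CompactSpace (_ × _)),
    inferInstanceAs (T2Space (_ × _)), inferInstanceAs (TotallyDisconnectedSpace (_ × _)),
    fun g g1 x y hx hy => ?_, π.ker, inferInstance,
    (isClosed_discrete ({1} : Set Q)).preimage continuous_snd, fun x hx y hy => ab x y hx hy,
    ⟨QuotientGroup.quotientKerEquivOfSurjective π fun q => ⟨(0, q), rfl⟩⟩⟩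
  by_cases h0 : g.2 = 1
  · exact ab x y ((free x g h0 hx).resolve_right g1) ((free y g h0 hy).resolve_right g1)
  have key : x.2 * y.2 = y.2 * x.2 := by
    by_cases h4 : g.2 = a 4
    · have : ∀ b (x : G), x * g = g * x → ∀ i, (PadicInt.toZMod ∘ g.1 b) i + f _ b (a 4) x.2 i =
          A b x.2 (PadicInt.toZMod ∘ g.1 b) i + f _ b x.2 (a 4) i := fun b x hx i => by
        have e := congrArg PadicInt.toZMod (congrFun (congrFun (congrArg Prod.fst hx) b) i)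
        have e2 : (R b x.2).map (Int.castRingHom (ZMod 2)) =
            ((R b x.2).map (Int.castRingHom ℤ_[2])).map PadicInt.toZMod := by
          ext
          simp
        rw [m1, m1, h4, Az] at e
        simp only [Pi.add_apply, map_add, Pi.neg_apply, map_neg, A, RingHom.map_mulVec, f, eq_intCast,
          map_intCast, ZMod.neg_eq_self_mod_two, ← e2] at e ⊢
        simp only [Function.comp_apply]
        linear_combination -e
      have h := fun b => (hz b _ _ (this b x hx) y.2).resolve_right (not_not.2 (this b y hy))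
      exact (h 0).elim id fun p0 => (h 1).elim id (hq.2.2 _ _ p0)
    · exact hq.2.1 _ _ _ h0 h4 (congrArg Prod.snd hx).symm (congrArg Prod.snd hy).symm
  have cx : Commute g x := hx.symm
  have cy : Commute g y := hy.symm
  have := (free g (x * y * (y * x)⁻¹) (by
    change π (x * y * (y * x)⁻¹) = 1
    rw [map_mul, map_inv, mul_inv_eq_one]
    exact key) ((cx.mul_right cy).mul_right (cy.mul_right cx).inv_right)).resolve_left h0
  exact mul_inv_eq_one.1 this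

end Pool.Agent.Results.MP_427463_al.Yes
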